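import Pool.Agent.N236.UR.Stm5

/-!
# Project UR (helper236), part 4: task RED (helper985)
-/

set_option autoImplicit false

open Polynomial

namespace Pool.Agent.N985.UR.RED

open Pool.Agent.N236.UB Pool.Agent.N236.UR

variable {L : Type} [Field L]

/-- homogeneity of the Dickson polynomials -/
theorem scale (t x b : L) (n : ℕ) :
    (dickson 1 (t ^ 2 * b) n).eval (t * x) = t ^ n * (dickson 1 b n).eval x := by
  induction n using Nat.twoStepInduction with
  | zero => simp [dickson_zero]
  | one => simp [dickson_one]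
  | more n h1 h2 =>
    rw [dickson_add_two, dickson_add_two, eval_sub, eval_sub, eval_mul, eval_mul, eval_mul,
      eval_mul, eval_X, eval_X, eval_C, eval_C, h1, h2]
    ring

theorem wd_dkm (hDE : ∀ (a A B : L) (n : ℕ),
      (dickson 1 a n).eval A - (dickson 1 a n).eval B = (A - B) * DE a A B n)
    (l : ℕ) (α : L) (x y : L × L) :
    wd (dkm l α x) (dkm l α y) = wd x y * phiD l α x y := by
  have h1 := scale y.2 x.1 (α * x.2 ^ 2) l
  have h2 := scale x.2 y.1 (α * y.2 ^ 2) l
  have e1 : y.2 ^ 2 * (α * x.2 ^ 2) = α * x.2 ^ 2 * y.2 ^ 2 := by ring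
  have e2 : x.2 ^ 2 * (α * y.2 ^ 2) = α * x.2 ^ 2 * y.2 ^ 2 := by ring
  rw [e1, mul_comm y.2 x.1] at h1
  rw [e2] at h2
  have h3 := hDE (α * x.2 ^ 2 * y.2 ^ 2) (x.1 * y.2) (x.2 * y.1) l
  rw [h1, h2] at h3
  unfold wd dkm phiD
  simp only
  rw [← h3]
  ring

theorem NN1 (v : AbsoluteValue L ℝ) (s : ℝ) (x : L × L) : v x.1 ≤ NN v s x := le_max_left _ _

theorem NN2 (v : AbsoluteValue L ℝ) {s : ℝ} (hs : 0 < s) (x : L × L) : v x.2 ≤ NN v s x / s := by
  rw [le_div_iff₀ hs, mul_comm]
  exact le_max_right _ _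

/-- sizes -/
theorem size {v : AbsoluteValue L ℝ} {s : ℝ} (hs : 0 < s) {α : L} (hα : v α ≤ s ^ 2) (c : L)
    (x y : L × L) {N : ℝ} (hN : v c * NN v s x = N) :
    v (c * (x.1 * y.2)) ≤ N * NN v s y / s ∧ v (c * (x.2 * y.1)) ≤ N * NN v s y / s ∧
      v (c ^ 2 * (α * x.2 ^ 2 * y.2 ^ 2)) ≤ (N * NN v s y / s) ^ 2 := by
  have hx1 := NN1 v s x
  have hx2 := NN2 v hs x
  have hy1 := NN1 v s y
  have hy2 := NN2 v hs y
  have hc := v.nonneg c
  have h1 := v.nonneg x.1
  have h2 := v.nonneg x.2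
  have h3 := v.nonneg y.1
  have h4 := v.nonneg y.2
  have h5 : 0 ≤ NN v s x := h1.trans hx1
  have h6 : 0 ≤ NN v s y := h3.trans hy1
  refine ⟨?_, ?_, ?_⟩
  · rw [map_mul, map_mul, ← hN]
    calc v c * (v x.1 * v y.2) ≤ v c * (NN v s x * (NN v s y / s)) :=
          mul_le_mul_of_nonneg_left (mul_le_mul hx1 hy2 h4 h5) hc
      _ = v c * NN v s x * NN v s y / s := by ring
  · rw [map_mul, map_mul, ← hN]
    calc v c * (v x.2 * v y.1) ≤ v c * ((NN v s x / s) * NN v s y) :=
          mul_le_mul_of_nonneg_left (mul_le_mul hx2 hy1 h3 (by positivity)) hc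
      _ = v c * NN v s x * NN v s y / s := by ring
  · rw [map_mul, map_pow, map_mul, map_mul, map_pow, map_pow, ← hN]
    calc v c ^ 2 * (v α * v x.2 ^ 2 * v y.2 ^ 2)
        ≤ v c ^ 2 * (s ^ 2 * (NN v s x / s) ^ 2 * (NN v s y / s) ^ 2) := by
          refine mul_le_mul_of_nonneg_left ?_ (by positivity)
          refine mul_le_mul (mul_le_mul hα (pow_le_pow_left₀ h2 hx2 2) (by positivity)
            (by positivity)) (pow_le_pow_left₀ h4 hy2 2) (by positivity) (by positivity)
      _ = (v c * NN v s x * NN v s y / s) ^ 2 := by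
          field_simp

theorem size1 {v : AbsoluteValue L ℝ} {s : ℝ} (hs : 0 < s) {α : L} (hα : v α ≤ s ^ 2)
    (x y : L × L) :
    v (x.1 * y.2) ≤ NN v s x * NN v s y / s ∧ v (x.2 * y.1) ≤ NN v s x * NN v s y / s ∧
      v (α * x.2 ^ 2 * y.2 ^ 2) ≤ (NN v s x * NN v s y / s) ^ 2 := by
  have h := size hs hα 1 x y (N := NN v s x) (by rw [map_one, one_mul])
  simpa only [one_mul, one_pow] using h

/-- if one summand dominates -/
theorem dom {v : AbsoluteValue L ℝ} (hu : ∀ x y : L, v (x + y) ≤ max (v x) (v y)) {a b : L}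
    (h : v b < v a) : v a ≤ v (a - b) := by
  have h1 := hu (a - b) b
  rw [sub_add_cancel] at h1
  rcases le_max_iff.1 h1 with h2 | h2
  · exact h2
  · exact absurd h2 (not_le.2 h)

/-- the conclusion from the inequalities for `A, B, a` -/
theorem fin {v : AbsoluteValue L ℝ}
    (hDE : ∀ (c a A B a' A' B' : L) (M : ℝ) (n : ℕ), 0 < M → 1 ≤ n →
    v (c * A) ≤ M → v (c * B) ≤ M → v (c ^ 2 * a) ≤ M ^ 2 → v A' ≤ M → v B' ≤ M → v a' ≤ M ^ 2 →
    v (A' - c * A) < M → v (B' - c * B) < M → v (a' - c ^ 2 * a) < M ^ 2 →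
    v (DE a' A' B' n - c ^ (n - 1) * DE a A B n) < M ^ (n - 1))
    {l : ℕ} (hl : 1 ≤ l) {s : ℝ} (hs : 0 < s) {α : L} (hα : v α ≤ s ^ 2) {c : L} {x x' y : L × L}
    (hc : v c * NN v s x = NN v s x') (hx' : 0 < NN v s x') (hy : 0 < NN v s y)
    (h1 : v (x'.1 * y.2 - c * (x.1 * y.2)) < NN v s x' * NN v s y / s)
    (h2 : v (x'.2 * y.1 - c * (x.2 * y.1)) < NN v s x' * NN v s y / s)
    (h3 : v (α * x'.2 ^ 2 * y.2 ^ 2 - c ^ 2 * (α * x.2 ^ 2 * y.2 ^ 2)) <
      (NN v s x' * NN v s y / s) ^ 2) :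
    v (phiD l α x' y - c ^ (l - 1) * phiD l α x y) * s ^ (l - 1) <
      (NN v s x' * NN v s y) ^ (l - 1) := by
  obtain ⟨a1, a2, a3⟩ := size hs hα c x y hc
  obtain ⟨b1, b2, b3⟩ := size1 hs hα x' y
  have h4 := hDE c _ _ _ _ _ _ (NN v s x' * NN v s y / s) l (by positivity) hl a1 a2 a3 b1 b2 b3
    h1 h2 h3
  have h5 := mul_lt_mul_of_pos_right h4 (pow_pos hs (l - 1))
  rw [← mul_pow, div_mul_cancel₀ _ hs.ne'] at h5
  exact h5

theorem t_red : S_DE → S_RED := by
  intro hde L _ v hu l α s hl hs hα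
  obtain ⟨d1, d2, d3, d4⟩ := hde L v hu
  refine ⟨fun x y => wd_dkm d1 l α x y, fun x y => ?_, fun x y hx hy => ?_, fun x x' hx hx' h => ?_⟩
  · unfold phiD
    rw [d2]
    congr 1 <;> ring
  · obtain ⟨b1, b2, b3⟩ := size1 hs hα x y
    have h4 := d3 _ _ _ (NN v s x * NN v s y / s) l (by positivity) hl b1 b2 b3
    have h5 := mul_le_mul_of_nonneg_right h4 (pow_pos hs (l - 1)).le
    rw [← mul_pow, div_mul_cancel₀ _ hs.ne'] at h5
    exact h5
  · have hwd : wd x x' = x.1 * x'.2 - x.2 * x'.1 := rfl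
    rcases le_or_gt (v x.1) (s * v x.2) with hc1 | hc1
    · -- first case
      have hNx : NN v s x = s * v x.2 := max_eq_right hc1
      have hx2 : 0 < v x.2 := by
        rw [hNx] at hx
        exact (mul_pos_iff_of_pos_left hs).1 hx
      have hx20 : x.2 ≠ 0 := (v.pos_iff).1 hx2
      have hc2 : v x'.1 ≤ s * v x'.2 := by
        by_contra hcon
        push Not at hcon
        have hNx' : NN v s x' = v x'.1 := max_eq_left hcon.le
        have h6 : v (x.1 * x'.2) < v (x.2 * x'.1) := by
          rw [map_mul, map_mul]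
          calc v x.1 * v x'.2 ≤ s * v x.2 * v x'.2 :=
                mul_le_mul_of_nonneg_right hc1 (v.nonneg _)
            _ = v x.2 * (s * v x'.2) := by ring
            _ < v x.2 * v x'.1 := mul_lt_mul_of_pos_left hcon hx2
        have h7 := dom hu h6
        rw [← neg_sub, v.map_neg, ← hwd, map_mul] at h7
        have h8 : s * (v x.2 * v x'.1) ≤ s * v (wd x x') := mul_le_mul_of_nonneg_left h7 hs.le
        rw [hNx, hNx'] at h
        linarith
      have hNx' : NN v s x' = s * v x'.2 := max_eq_right hc2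
      have hcx : x'.2 / x.2 * x.2 = x'.2 := div_mul_cancel₀ _ hx20
      have hcn : v (x'.2 / x.2) * NN v s x = NN v s x' := by
        have : v (x'.2 / x.2) * v x.2 = v x'.2 := by rw [← map_mul, hcx]
        rw [hNx, hNx', ← this]
        ring
      have hdiff : v (x'.1 - x'.2 / x.2 * x.1) < NN v s x' := by
        have e : (x'.1 - x'.2 / x.2 * x.1) * x.2 = - wd x x' := by
          rw [hwd]
          field_simp
          ring
        have h9 : v (x'.1 - x'.2 / x.2 * x.1) * v x.2 = v (wd x x') := by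
          rw [← map_mul, e, v.map_neg]
        have h10 : v (x'.1 - x'.2 / x.2 * x.1) * (s * v x.2) < NN v s x' * (s * v x.2) := by
          have : v (x'.1 - x'.2 / x.2 * x.1) * (s * v x.2) = s * v (wd x x') := by
            rw [← h9]
            ring
          rw [this]
          rw [hNx] at h
          linarith
        exact lt_of_mul_lt_mul_right h10 (by positivity)
      refine ⟨x'.2 / x.2, hcn, fun y hy => ?_⟩
      refine fin d4 hl hs hα hcn hx' hy ?_ ?_ ?_
      · have e : x'.1 * y.2 - x'.2 / x.2 * (x.1 * y.2) = (x'.1 - x'.2 / x.2 * x.1) * y.2 := by ring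
        rw [e, map_mul]
        rcases eq_or_lt_of_le (v.nonneg y.2) with h0 | h0
        · rw [← h0, mul_zero]
          positivity
        · calc v (x'.1 - x'.2 / x.2 * x.1) * v y.2 < NN v s x' * v y.2 :=
                mul_lt_mul_of_pos_right hdiff h0
            _ ≤ NN v s x' * (NN v s y / s) :=
                mul_le_mul_of_nonneg_left (NN2 v hs y) hx'.le
            _ = NN v s x' * NN v s y / s := by ring
      · have e : x'.2 * y.1 - x'.2 / x.2 * (x.2 * y.1) = 0 := by
          rw [← mul_assoc, hcx, sub_self]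
        rw [e, map_zero]
        positivity
      · have e : α * x'.2 ^ 2 * y.2 ^ 2 - (x'.2 / x.2) ^ 2 * (α * x.2 ^ 2 * y.2 ^ 2) = 0 := by
          have : (x'.2 / x.2) ^ 2 * (α * x.2 ^ 2 * y.2 ^ 2) =
              α * (x'.2 / x.2 * x.2) ^ 2 * y.2 ^ 2 := by ring
          rw [this, hcx, sub_self]
        rw [e, map_zero]
        positivity
    · -- second case
      have hNx : NN v s x = v x.1 := max_eq_left hc1.le
      have hx1 : 0 < v x.1 := by rwa [hNx] at hx
      have hx10 : x.1 ≠ 0 := (v.pos_iff).1 hx1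
      have hc2 : s * v x'.2 ≤ v x'.1 := by
        by_contra hcon
        push Not at hcon
        have hNx' : NN v s x' = s * v x'.2 := max_eq_right hcon.le
        have hx'2 : 0 < v x'.2 := by
          rw [hNx'] at hx'
          exact (mul_pos_iff_of_pos_left hs).1 hx'
        have h6 : v (x.2 * x'.1) < v (x.1 * x'.2) := by
          rw [map_mul, map_mul]
          calc v x.2 * v x'.1 ≤ v x.2 * (s * v x'.2) :=
                mul_le_mul_of_nonneg_left hcon.le (v.nonneg _)
            _ = s * v x.2 * v x'.2 := by ring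
            _ < v x.1 * v x'.2 := mul_lt_mul_of_pos_right hc1 hx'2
        have h7 := dom hu h6
        rw [← hwd, map_mul] at h7
        have h8 : s * (v x.1 * v x'.2) ≤ s * v (wd x x') := mul_le_mul_of_nonneg_left h7 hs.le
        rw [hNx, hNx'] at h
        linarith
      have hNx' : NN v s x' = v x'.1 := max_eq_left hc2
      have hcx : x'.1 / x.1 * x.1 = x'.1 := div_mul_cancel₀ _ hx10
      have hcn : v (x'.1 / x.1) * NN v s x = NN v s x' := by
        rw [hNx, hNx', ← map_mul, hcx]
      have hdiff : v (x'.2 - x'.1 / x.1 * x.2) < NN v s x' / s := by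
        have e : (x'.2 - x'.1 / x.1 * x.2) * x.1 = wd x x' := by
          rw [hwd]
          field_simp
        have h9 : v (x'.2 - x'.1 / x.1 * x.2) * v x.1 = v (wd x x') := by
          rw [← map_mul, e]
        rw [lt_div_iff₀ hs]
        have h10 : v (x'.2 - x'.1 / x.1 * x.2) * s * v x.1 < NN v s x' * v x.1 := by
          have : v (x'.2 - x'.1 / x.1 * x.2) * s * v x.1 = s * v (wd x x') := by
            rw [← h9]
            ring
          rw [this]
          rw [hNx] at h
          linarith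
        exact lt_of_mul_lt_mul_right h10 hx1.le
      have hsum : v (x'.2 + x'.1 / x.1 * x.2) ≤ NN v s x' / s := by
        refine (hu _ _).trans (max_le (NN2 v hs x') ?_)
        rw [map_mul, ← hcn, mul_div_assoc]
        exact mul_le_mul_of_nonneg_left (NN2 v hs x) (v.nonneg _)
      refine ⟨x'.1 / x.1, hcn, fun y hy => ?_⟩
      refine fin d4 hl hs hα hcn hx' hy ?_ ?_ ?_
      · have e : x'.1 * y.2 - x'.1 / x.1 * (x.1 * y.2) = 0 := by
          rw [← mul_assoc, hcx, sub_self]
        rw [e, map_zero]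
        positivity
      · have e : x'.2 * y.1 - x'.1 / x.1 * (x.2 * y.1) = (x'.2 - x'.1 / x.1 * x.2) * y.1 := by ring
        rw [e, map_mul]
        rcases eq_or_lt_of_le (v.nonneg y.1) with h0 | h0
        · rw [← h0, mul_zero]
          positivity
        · calc v (x'.2 - x'.1 / x.1 * x.2) * v y.1 < NN v s x' / s * v y.1 :=
                mul_lt_mul_of_pos_right hdiff h0
            _ ≤ NN v s x' / s * NN v s y :=
                mul_le_mul_of_nonneg_left (NN1 v s y) (by positivity)
            _ = NN v s x' * NN v s y / s := by ring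
      · have e : α * x'.2 ^ 2 * y.2 ^ 2 - (x'.1 / x.1) ^ 2 * (α * x.2 ^ 2 * y.2 ^ 2) =
            α * y.2 ^ 2 * (x'.2 + x'.1 / x.1 * x.2) * (x'.2 - x'.1 / x.1 * x.2) := by ring
        rw [e, map_mul, map_mul, map_mul, map_pow]
        calc v α * v y.2 ^ 2 * v (x'.2 + x'.1 / x.1 * x.2) * v (x'.2 - x'.1 / x.1 * x.2)
            ≤ s ^ 2 * (NN v s y / s) ^ 2 * (NN v s x' / s) * v (x'.2 - x'.1 / x.1 * x.2) := by
              refine mul_le_mul_of_nonneg_right ?_ (v.nonneg _)
              refine mul_le_mul ?_ hsum (v.nonneg _) (by positivity)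
              exact mul_le_mul hα (pow_le_pow_left₀ (v.nonneg _) (NN2 v hs y) 2)
                (by positivity) (by positivity)
          _ < s ^ 2 * (NN v s y / s) ^ 2 * (NN v s x' / s) * (NN v s x' / s) :=
              mul_lt_mul_of_pos_left hdiff (by positivity)
          _ = (NN v s x' * NN v s y / s) ^ 2 := by
              field_simp

end Pool.Agent.N985.UR.RED
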